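import Pool.Agent.Work.MP_e97a4d_nt.UG.Defs
import Pool.Agent.Work.MP_e97a4d_nt.Hyp.Trans

/-!
# UG/Res: residue fields, charts and points with values in fields
-/

set_option autoImplicit false

noncomputable section

namespace Pool.Agent.Work.MP_e97a4d_nt

open AlgebraicGeometry CategoryTheory NumberField
open Hyp

variable {V : Scheme.{0}}

/-- A point with values in a field factors through the residue field. -/
theorem exists_theta {K : Type} [Field K] (x : Spec (CommRingCat.of K) ⟶ V) (v : V)
    (hv : x (⊥ : PrimeSpectrum K) = v) :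
    ∃ Θ : V.residueField v →+* K,
      Spec.map (CommRingCat.ofHom Θ) ≫ V.fromSpecResidueField v = x := by
  have h : x (IsLocalRing.closedPoint K) = v := by
    rw [← hv]
    exact congrArg x (Subsingleton.elim (α := PrimeSpectrum K) _ _)
  subst h
  exact ⟨(V.descResidueField (Scheme.stalkClosedPointTo x)).hom,
    Scheme.descResidueField_stalkClosedPointTo_fromSpecResidueField K V x⟩

theorem fromSpec_bot (v : V) :
    (V.fromSpecResidueField v) (⊥ : PrimeSpectrum (V.residueField v)) = v :=
  Scheme.fromSpecResidueField_apply v _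

/-- The residue field of a point of a chart is generated, as a field, by the functions of the chart. -/
theorem exists_alpha {B : CommRingCat.{0}} (j : Spec B ⟶ V) [IsOpenImmersion j] (v : V)
    (hv : v ∈ Set.range j) :
    ∃ α : B →+* V.residueField v, Spec.map (CommRingCat.ofHom α) ≫ j = V.fromSpecResidueField v ∧
      ∀ ξ : V.residueField v, ∃ a d : B, α d ≠ 0 ∧ ξ * α d = α a := by
  have h0 : (V.fromSpecResidueField v) (⊥ : PrimeSpectrum (V.residueField v)) ∈ Set.range j := by
    rw [fromSpec_bot]
    exact hv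
  obtain ⟨α, hα⟩ := exists_hom_of_mem (K := V.residueField v) (V.fromSpecResidueField v) j h0
  refine ⟨α, hα, ?_⟩
  set E : Subfield (V.residueField v) := Subfield.closure (Set.range α) with hE
  let α' : B →+* E := α.codRestrict E (fun b => Subfield.subset_closure ⟨b, rfl⟩)
  have hαα' : E.subtype.comp α' = α := rfl
  have hx : Spec.map (CommRingCat.ofHom E.subtype) ≫ (Spec.map (CommRingCat.ofHom α') ≫ j) =
      V.fromSpecResidueField v := by
    rw [← hα, ← hαα', ← Category.assoc, ← Spec.map_comp]
    rfl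
  have hv' : (Spec.map (CommRingCat.ofHom α') ≫ j) (⊥ : PrimeSpectrum E) = v := by
    refine Eq.trans ?_ (fromSpec_bot v)
    have h2 := congrArg (fun t : Spec (CommRingCat.of (V.residueField v)) ⟶ V =>
      t (⊥ : PrimeSpectrum (V.residueField v))) hx
    refine Eq.trans ?_ h2
    exact congrArg (Spec.map (CommRingCat.ofHom α') ≫ j)
      (Subsingleton.elim (α := PrimeSpectrum E) _ _)
  obtain ⟨Θ, hΘ⟩ := exists_theta (Spec.map (CommRingCat.ofHom α') ≫ j) v hv'
  have hid : E.subtype.comp Θ = RingHom.id _ := by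
    apply map_comp_inj (V.fromSpecResidueField v) (R := V.residueField v)
    have e1 : Spec.map (CommRingCat.ofHom (E.subtype.comp Θ)) ≫ V.fromSpecResidueField v =
        Spec.map (CommRingCat.ofHom E.subtype) ≫
          (Spec.map (CommRingCat.ofHom Θ) ≫ V.fromSpecResidueField v) := by
      rw [← Category.assoc, ← Spec.map_comp]
      rfl
    have e2 : Spec.map (CommRingCat.ofHom (RingHom.id (V.residueField v))) ≫
        V.fromSpecResidueField v = V.fromSpecResidueField v := by
      have : CommRingCat.ofHom (RingHom.id (V.residueField v)) = 𝟙 _ := rfl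
      rw [this, Spec.map_id, Category.id_comp]
    rw [e1, hΘ, hx, e2]
  intro ξ
  have h1 : ξ ∈ E := by
    have h2 : E.subtype (Θ ξ) = ξ := RingHom.congr_fun hid ξ
    rw [← h2]
    exact (Θ ξ).2
  rw [hE, Subfield.mem_closure_iff] at h1
  obtain ⟨y, hy, z, hz, hyz⟩ := h1
  have hcl : Subring.closure (Set.range α) ≤ α.range := by
    rw [Subring.closure_le]
    rintro _ ⟨b, rfl⟩
    exact ⟨b, rfl⟩
  obtain ⟨a, ha⟩ := hcl hy
  obtain ⟨d, hd⟩ := hcl hz
  by_cases hz0 : z = 0
  · refine ⟨0, 1, by simp, ?_⟩
    rw [← hyz, hz0]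
    simp
  · refine ⟨a, d, by rw [hd]; exact hz0, ?_⟩
    rw [ha, hd, ← hyz, div_mul_cancel₀ _ hz0]

/-- The homomorphism of the residue field to `K` given by a point, in a chart. -/
theorem theta_alpha {K : Type} [Field K] {B : CommRingCat.{0}} (j : Spec B ⟶ V) [IsOpenImmersion j]
    {v : V} (α : B →+* V.residueField v)
    (hα : Spec.map (CommRingCat.ofHom α) ≫ j = V.fromSpecResidueField v)
    (P : B →+* K) (Θ : V.residueField v →+* K)
    (hΘ : Spec.map (CommRingCat.ofHom Θ) ≫ V.fromSpecResidueField v =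
      Spec.map (CommRingCat.ofHom P) ≫ j) (b : B) : Θ (α b) = P b := by
  have h : Θ.comp α = P := by
    apply map_comp_inj j
    rw [← hΘ, ← hα, ← Category.assoc, ← Spec.map_comp]
    rfl
  exact RingHom.congr_fun h b

variable {F₀ : Type} [Field F₀]

theorem strAt_spec (π : V ⟶ Spec (CommRingCat.of (𝓞 F₀))) (v : V) :
    V.fromSpecResidueField v ≫ π = Spec.map (CommRingCat.ofHom (strAt π v)) := by
  have h : CommRingCat.ofHom (strAt π v) = Spec.preimage (V.fromSpecResidueField v ≫ π) := rfl
  rw [h, Spec.map_preimage]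

/-- The structure homomorphism at a point with values in a field. -/
theorem theta_str {K : Type} [Field K] (π : V ⟶ Spec (CommRingCat.of (𝓞 F₀)))
    (x : Spec (CommRingCat.of K) ⟶ V) (ρ : 𝓞 F₀ →+* K)
    (hx : x ≫ π = Spec.map (CommRingCat.ofHom ρ)) (v : V) (Θ : V.residueField v →+* K)
    (hΘ : Spec.map (CommRingCat.ofHom Θ) ≫ V.fromSpecResidueField v = x) :
    Θ.comp (strAt π v) = ρ := by
  have h : Spec.map (CommRingCat.ofHom (Θ.comp (strAt π v))) = Spec.map (CommRingCat.ofHom ρ) := by
    rw [← hx, ← hΘ, Category.assoc, strAt_spec, ← Spec.map_comp]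
    rfl
  exact congrArg CommRingCat.Hom.hom (Spec.map_injective h)

end Pool.Agent.Work.MP_e97a4d_nt
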