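import Mathlib

/-!
# UG/Frac: elements of a generated subfield as quotients of polynomials
-/

set_option autoImplicit false

noncomputable section

namespace Pool.Agent.Work.MP_e97a4d_nt

open MvPolynomial

private theorem closure_finite {κ : Type} [Field κ] (s : Set κ) {x : κ}
    (hx : x ∈ Subfield.closure s) : ∃ T : Finset κ, (T : Set κ) ⊆ s ∧ x ∈ Subfield.closure (T : Set κ) := by
  classical
  induction hx using Subfield.closure_induction with
  | mem x hx =>
    refine ⟨{x}, by simpa using hx, Subfield.subset_closure (by simp)⟩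
  | one => exact ⟨∅, by simp, one_mem _⟩
  | add x y _ _ h1 h2 =>
    obtain ⟨T1, hT1, h1⟩ := h1
    obtain ⟨T2, hT2, h2⟩ := h2
    refine ⟨T1 ∪ T2, by rw [Finset.coe_union]; exact Set.union_subset hT1 hT2, ?_⟩
    exact add_mem (Subfield.closure_mono (by rw [Finset.coe_union]; exact Set.subset_union_left) h1)
      (Subfield.closure_mono (by rw [Finset.coe_union]; exact Set.subset_union_right) h2)
  | neg x _ h1 =>
    obtain ⟨T1, hT1, h1⟩ := h1
    exact ⟨T1, hT1, neg_mem h1⟩
  | inv x _ h1 =>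
    obtain ⟨T1, hT1, h1⟩ := h1
    exact ⟨T1, hT1, inv_mem h1⟩
  | mul x y _ _ h1 h2 =>
    obtain ⟨T1, hT1, h1⟩ := h1
    obtain ⟨T2, hT2, h2⟩ := h2
    refine ⟨T1 ∪ T2, by rw [Finset.coe_union]; exact Set.union_subset hT1 hT2, ?_⟩
    exact mul_mem (Subfield.closure_mono (by rw [Finset.coe_union]; exact Set.subset_union_left) h1)
      (Subfield.closure_mono (by rw [Finset.coe_union]; exact Set.subset_union_right) h2)

/-- Finitely many elements of the subfield generated by `U ∪ C` are quotients of polynomials in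
finitely many elements of `U` and of `C`. -/
theorem exists_frac {κ : Type} [Field κ] (U C : Set κ) {ι : Type} [Finite ι] (x : ι → κ)
    (hx : ∀ l, x l ∈ Subfield.closure (U ∪ C)) :
    ∃ (n r : ℕ) (u : Fin n → κ) (c : Fin r → κ) (a d : ι → MvPolynomial (Fin n ⊕ Fin r) ℤ),
      (∀ m, u m ∈ U) ∧ (∀ k, c k ∈ C) ∧
      ∀ l, aeval (Sum.elim u c) (d l) ≠ 0 ∧
        x l * aeval (Sum.elim u c) (d l) = aeval (Sum.elim u c) (a l) := by
  classical
  have := Fintype.ofFinite ι
  choose T hT hxT using fun l => closure_finite (U ∪ C) (hx l)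
  set Tt : Finset κ := Finset.univ.biUnion T with hTt
  have hTs : ∀ e ∈ Tt, e ∈ U ∪ C := by
    intro e he
    obtain ⟨l, -, hl⟩ := Finset.mem_biUnion.1 he
    exact hT l hl
  set Tu : Finset κ := Tt.filter (fun e => e ∈ U) with hTu
  set Tc : Finset κ := Tt.filter (fun e => e ∉ U) with hTc
  set u : Fin Tu.card → κ := fun m => (Tu.equivFin.symm m : κ) with hu
  set c : Fin Tc.card → κ := fun k => (Tc.equivFin.symm k : κ) with hc
  have hrange : (Tt : Set κ) ⊆ Set.range (Sum.elim u c) := by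
    intro e he
    by_cases h : e ∈ U
    · have h1 : e ∈ Tu := Finset.mem_filter.2 ⟨he, h⟩
      refine ⟨Sum.inl (Tu.equivFin ⟨e, h1⟩), ?_⟩
      simp [hu]
    · have h1 : e ∈ Tc := Finset.mem_filter.2 ⟨he, h⟩
      refine ⟨Sum.inr (Tc.equivFin ⟨e, h1⟩), ?_⟩
      simp [hc]
  have hsub : Subring.closure (Set.range (Sum.elim u c)) ≤
      ((aeval (Sum.elim u c) : MvPolynomial (Fin Tu.card ⊕ Fin Tc.card) ℤ →ₐ[ℤ] κ) :
        MvPolynomial (Fin Tu.card ⊕ Fin Tc.card) ℤ →+* κ).range := by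
    rw [Subring.closure_le]
    rintro _ ⟨q, rfl⟩
    exact ⟨X q, by simp⟩
  have hx2 : ∀ l, ∃ a d : MvPolynomial (Fin Tu.card ⊕ Fin Tc.card) ℤ,
      aeval (Sum.elim u c) d ≠ 0 ∧
        x l * aeval (Sum.elim u c) d = aeval (Sum.elim u c) a := by
    intro l
    have h1 : x l ∈ Subfield.closure (Set.range (Sum.elim u c)) := by
      refine Subfield.closure_mono (fun e he => hrange ?_) (hxT l)
      exact Finset.mem_biUnion.2 ⟨l, Finset.mem_univ l, he⟩
    rw [Subfield.mem_closure_iff] at h1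
    obtain ⟨y, hy, z, hz, hyz⟩ := h1
    obtain ⟨a, ha⟩ := hsub hy
    obtain ⟨d, hd⟩ := hsub hz
    have ha' : aeval (Sum.elim u c) a = y := ha
    have hd' : aeval (Sum.elim u c) d = z := hd
    by_cases hz0 : z = 0
    · refine ⟨0, 1, by simp, ?_⟩
      rw [← hyz, hz0]
      simp
    · refine ⟨a, d, by rw [hd']; exact hz0, ?_⟩
      rw [ha', hd', ← hyz, div_mul_cancel₀ _ hz0]
  choose a d had using hx2
  refine ⟨_, _, u, c, a, d, fun m => ?_, fun k => ?_, had⟩
  · exact (Finset.mem_filter.1 (Tu.equivFin.symm m).2).2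
  · have h1 := Finset.mem_filter.1 (Tc.equivFin.symm k).2
    exact (hTs _ h1.1).resolve_left h1.2

end Pool.Agent.Work.MP_e97a4d_nt
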