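import Pool.Agent.Work.MP_e97a4d_nt.Hyp.PtToCurve
import Pool.Agent.Work.MP_e97a4d_nt.UP.Defs

/-!
# UG/EntU: quotients of elements of `unitRing` in the field of meromorphic functions
-/

set_option autoImplicit false

noncomputable section

namespace Pool.Agent.Work.MP_e97a4d_nt

open Hyp Filter
open scoped Topology

theorem mer_of_diff {e : ℂ → ℂ} (he : Differentiable ℂ e) : Meromorphic e :=
  fun z => (he.analyticAt z).meromorphicAt

/-- A meromorphic function without zeros and poles. -/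
theorem exists_unit_rep (u : Mero) (h : ∀ z, u ∈ Mz z) (h' : ∀ z, u⁻¹ ∈ Mz z) (hu : u ≠ 0) :
    ∃ (e : ℂ → ℂ) (he : Differentiable ℂ e), (∀ z, e z ≠ 0) ∧ mk e (mer_of_diff he) = u := by
  have he : Differentiable ℂ (pcNf u) := fun z => (pcNf_analytic (h z)).differentiableAt
  refine ⟨pcNf u, he, fun z hz => ?_, ?_⟩
  · have h1 : evz z ⟨u, h z⟩ * evz z ⟨u⁻¹, h' z⟩ = 1 := by
      rw [← map_mul]
      have h2 : (⟨u, h z⟩ : Mz z) * ⟨u⁻¹, h' z⟩ = 1 := Subtype.ext (mul_inv_cancel₀ hu)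
      rw [h2, map_one]
    rw [pcNf_evz, hz, zero_mul] at h1
    exact zero_ne_one h1
  · have h1 : rep u =ᶠ[codiscrete ℂ] pcNf u := by
      rw [Filter.EventuallyEq, eventually_codiscrete]
      exact fun z => pcNf_eventually u z
    have h2 := (mk_eq_iff (hf := rep_mero u) (hg := mer_of_diff he)).2 h1
    rw [← h2, mk_rep]

theorem unitRing_diff {p : ℂ → ℂ} (hp : p ∈ unitRing) : Differentiable ℂ p := by
  unfold unitRing at hp
  induction hp using Subring.closure_induction with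
  | mem x hx => exact hx.1
  | zero => exact differentiable_const 0
  | one => exact differentiable_const 1
  | add x y _ _ hx hy => exact hx.add hy
  | neg x _ hx => exact hx.neg
  | mul x y _ _ hx hy => exact hx.mul hy

theorem const_mem_unitRing (c : ℂ) : (fun _ => c : ℂ → ℂ) ∈ unitRing := by
  by_cases hc : c = 0
  · subst hc
    exact zero_mem unitRing
  · exact Subring.subset_closure ⟨differentiable_const c, fun _ => hc⟩

/-- The meromorphic function is a quotient of elements of `unitRing`. -/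
def IsUQ (m : Mero) : Prop :=
  ∃ p, ∃ hp : p ∈ unitRing, ∃ q, ∃ hq : q ∈ unitRing, mk q (mer_of_diff (unitRing_diff hq)) ≠ 0 ∧
    m * mk q (mer_of_diff (unitRing_diff hq)) = mk p (mer_of_diff (unitRing_diff hp))

theorem IsUQ.one : IsUQ 1 := by
  refine ⟨1, one_mem _, 1, one_mem _, ?_, ?_⟩
  · exact one_ne_zero
  · exact one_mul _

theorem IsUQ.zero : IsUQ 0 := by
  refine ⟨0, zero_mem _, 1, one_mem _, ?_, ?_⟩
  · exact one_ne_zero
  · exact zero_mul _

theorem IsUQ.add {m m' : Mero} (h : IsUQ m) (h' : IsUQ m') : IsUQ (m + m') := by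
  obtain ⟨p, hp, q, hq, hq0, he⟩ := h
  obtain ⟨p', hp', q', hq', hq0', he'⟩ := h'
  refine ⟨p * q' + p' * q, add_mem (mul_mem hp hq') (mul_mem hp' hq), q * q', mul_mem hq hq',
    ?_, ?_⟩
  · exact mul_ne_zero hq0 hq0'
  · have e1 : mk (q * q') (mer_of_diff (unitRing_diff (mul_mem hq hq'))) =
        mk q (mer_of_diff (unitRing_diff hq)) * mk q' (mer_of_diff (unitRing_diff hq')) := rfl
    have e2 : mk (p * q' + p' * q)
        (mer_of_diff (unitRing_diff (add_mem (mul_mem hp hq') (mul_mem hp' hq)))) =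
        mk p (mer_of_diff (unitRing_diff hp)) * mk q' (mer_of_diff (unitRing_diff hq')) +
        mk p' (mer_of_diff (unitRing_diff hp')) * mk q (mer_of_diff (unitRing_diff hq)) := rfl
    rw [e1, e2, ← he, ← he']
    ring

theorem IsUQ.mul {m m' : Mero} (h : IsUQ m) (h' : IsUQ m') : IsUQ (m * m') := by
  obtain ⟨p, hp, q, hq, hq0, he⟩ := h
  obtain ⟨p', hp', q', hq', hq0', he'⟩ := h'
  refine ⟨p * p', mul_mem hp hp', q * q', mul_mem hq hq', ?_, ?_⟩
  · exact mul_ne_zero hq0 hq0'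
  · have e1 : mk (q * q') (mer_of_diff (unitRing_diff (mul_mem hq hq'))) =
        mk q (mer_of_diff (unitRing_diff hq)) * mk q' (mer_of_diff (unitRing_diff hq')) := rfl
    have e2 : mk (p * p') (mer_of_diff (unitRing_diff (mul_mem hp hp'))) =
        mk p (mer_of_diff (unitRing_diff hp)) * mk p' (mer_of_diff (unitRing_diff hp')) := rfl
    rw [e1, e2, ← he, ← he']
    ring

theorem IsUQ.neg {m : Mero} (h : IsUQ m) : IsUQ (-m) := by
  obtain ⟨p, hp, q, hq, hq0, he⟩ := h
  refine ⟨-p, neg_mem hp, q, hq, hq0, ?_⟩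
  have e2 : mk (-p) (mer_of_diff (unitRing_diff (neg_mem hp))) =
      - mk p (mer_of_diff (unitRing_diff hp)) := rfl
  rw [e2, ← he, neg_mul]

theorem IsUQ.inv {m : Mero} (h : IsUQ m) : IsUQ m⁻¹ := by
  by_cases hm : m = 0
  · rw [hm, inv_zero]
    exact IsUQ.zero
  obtain ⟨p, hp, q, hq, hq0, he⟩ := h
  refine ⟨q, hq, p, hp, ?_, ?_⟩
  · rw [← he]
    exact mul_ne_zero hm hq0
  · rw [← he, inv_mul_cancel_left₀ hm]

theorem IsUQ.of_unit {m : Mero} (h : ∀ z, m ∈ Mz z) (h' : ∀ z, m⁻¹ ∈ Mz z) (hm : m ≠ 0) :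
    IsUQ m := by
  obtain ⟨e, he, he0, hem⟩ := exists_unit_rep m h h' hm
  have h1 : e ∈ unitRing := Subring.subset_closure ⟨he, he0⟩
  refine ⟨e, h1, 1, one_mem _, ?_, ?_⟩
  · exact one_ne_zero
  · rw [hem]
    exact mul_one _

theorem IsUQ.const (c : ℂ) : IsUQ (algebraMap ℂ Mero c) := by
  refine ⟨fun _ => c, const_mem_unitRing c, 1, one_mem _, ?_, ?_⟩
  · exact one_ne_zero
  · exact mul_one _

/-- Algebraic elements are constant. -/
theorem mero_alg {m : Mero} (p : Polynomial ℂ) (hp : p ≠ 0) (h : Polynomial.aeval m p = 0) :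
    m ∈ Set.range (algebraMap ℂ Mero) := by
  have hi : IsIntegral ℂ m := IsAlgebraic.isIntegral ⟨p, hp, h⟩
  exact minpoly.mem_range_of_degree_eq_one ℂ m
    (IsAlgClosed.degree_eq_one_of_irreducible ℂ (minpoly.irreducible hi))

end Pool.Agent.Work.MP_e97a4d_nt
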