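import Pool.Agent.Work.MP_e97a4d_nt.UG.Defs
import Pool.Agent.Work.MP_e97a4d_nt.Hyp.Trans

/-!
# UG/Val: the values of integral elements at points which extend over a valuation ring
-/

set_option autoImplicit false

noncomputable section

namespace Pool.Agent.Work.MP_e97a4d_nt

open AlgebraicGeometry CategoryTheory NumberField
open Hyp

variable {V : Scheme.{0}}

/-- A point with values in a local ring is in a chart which contains its closed point. -/
private theorem factor_local {R : Type} [CommRing R] [IsLocalRing R] (y : Spec (CommRingCat.of R) ⟶ V) :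
    ∃ (C : CommRingCat.{0}) (j : Spec C ⟶ V) (g : C →+* R), IsOpenImmersion j ∧
      Spec.map (CommRingCat.ofHom g) ≫ j = y := by
  obtain ⟨W, hW, hsW, -⟩ := exists_isAffineOpen_mem_and_subset (X := V)
    (x := y (IsLocalRing.closedPoint R)) (U := ⊤) trivial
  have hr : Set.range y ⊆ Set.range hW.fromSpec := by
    rw [hW.range_fromSpec]
    rintro _ ⟨q, rfl⟩
    have h1 : q ⤳ IsLocalRing.closedPoint R := IsLocalRing.specializes_closedPoint q
    exact (h1.map y.continuous).mem_open W.isOpen hsW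
  obtain ⟨g, hg⟩ := Spec.map_surjective (IsOpenImmersion.lift hW.fromSpec y hr)
  refine ⟨_, hW.fromSpec, g.hom, inferInstance, ?_⟩
  have h2 : CommRingCat.ofHom g.hom = g := rfl
  rw [h2, hg, IsOpenImmersion.lift_fac]

/-- The value of an integral element at a point which extends over a valuation ring. -/
theorem integral_val {K κ : Type} [Field K] [Field κ] {B : CommRingCat.{0}} (j : Spec B ⟶ V)
    [IsOpenImmersion j] (P : B →+* K) (α : B →+* κ) (hker : ∀ b, α b = 0 → P b = 0)
    (O : ValuationSubring K) (hO : HasExt O (Spec.map (CommRingCat.ofHom P) ≫ j))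
    {u : κ} (hu : IntegralAt (Spec.map (CommRingCat.ofHom α) ≫ j) u) {a d : B}
    (had : u * α d = α a) (hd : P d ≠ 0) : P a / P d ∈ O := by
  obtain ⟨y, hy⟩ := hO
  obtain ⟨C, j₂, g, hj₂, hg⟩ := factor_local y
  set Q : C →+* K := (algebraMap O K).comp g with hQ
  have hxQ : Spec.map (CommRingCat.ofHom P) ≫ j = Spec.map (CommRingCat.ofHom Q) ≫ j₂ := by
    rw [← hy, ← hg, ← Category.assoc, ← Spec.map_comp]
    rfl
  have hmem : (Spec.map (CommRingCat.ofHom P) ≫ j) (⊥ : PrimeSpectrum K) ∈ j₂.opensRange := by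
    rw [hxQ]
    exact ⟨_, rfl⟩
  obtain ⟨t, ht, htj⟩ := exists_elt j P j₂.opensRange hmem
  obtain ⟨β, k, htr⟩ := transition j j₂ t htj
  obtain ⟨g₂, hg₂, hg₂β⟩ := htr K P ht
  have hQg : g₂ = Q := by
    apply map_comp_inj j₂
    rw [← hg₂, hxQ]
  have hαt : α t ≠ 0 := fun h => ht (hker t h)
  obtain ⟨g₃, hg₃, hg₃β⟩ := htr κ α hαt
  obtain ⟨p, hp, hpu⟩ := hu C j₂ g₃ hj₂ hg₃.symm
  set n := p.natDegree with hn
  -- a common exponent
  obtain ⟨N, hN⟩ : ∃ N, ∀ l ∈ Finset.range (n + 1), k (p.coeff l) ≤ N :=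
    ⟨∑ l ∈ Finset.range (n + 1), k (p.coeff l), fun l hl =>
      Finset.single_le_sum (f := fun l => k (p.coeff l)) (fun _ _ => Nat.zero_le _) hl⟩
  set E : B := ∑ l ∈ Finset.range (n + 1), β (p.coeff l) * t ^ (N - k (p.coeff l)) * (a ^ l * d ^ (n - l))
    with hE
  -- the image of the sum
  have key : ∀ (L : Type) [Field L] (ψ : B →+* L) (q : C →+* L) (τ : L), ψ t ≠ 0 →
      (∀ c, q c = ψ (β c) / ψ t ^ k c) → τ * ψ d = ψ a →
      ψ E = ψ t ^ N * ψ d ^ n * p.eval₂ q τ := by
    intro L _ ψ q τ hψt hq hτ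
    rw [Polynomial.eval₂_eq_sum_range, hE, map_sum, Finset.mul_sum]
    refine Finset.sum_congr rfl fun l hl => ?_
    have hl' : l ≤ n := Nat.lt_succ_iff.1 (Finset.mem_range.1 hl)
    simp only [map_mul, map_pow]
    rw [hq, ← hτ]
    have e1 : ψ t ^ N = ψ t ^ (N - k (p.coeff l)) * ψ t ^ k (p.coeff l) := by
      rw [← pow_add, Nat.sub_add_cancel (hN l hl)]
    have e2 : ψ d ^ n = ψ d ^ (n - l) * ψ d ^ l := by
      rw [← pow_add, Nat.sub_add_cancel hl']
    rw [e1, e2]
    have := pow_ne_zero (k (p.coeff l)) hψt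
    field_simp
    ring
  have h1 : α E = 0 := by
    rw [key κ α g₃ u hαt hg₃β had, hpu, mul_zero]
  have h2 : P E = 0 := hker E h1
  have h3 : P a / P d * P d = P a := div_mul_cancel₀ _ hd
  rw [key K P Q (P a / P d) ht (fun c => by rw [← hQg]; exact hg₂β c) h3] at h2
  have h4 : p.eval₂ Q (P a / P d) = 0 := by
    rcases mul_eq_zero.1 h2 with h | h
    · exact absurd h (mul_ne_zero (pow_ne_zero _ ht) (pow_ne_zero _ hd))
    · exact h
  have h5 : IsIntegral O (P a / P d) := by
    refine ⟨p.map g, hp.map g, ?_⟩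
    rw [Polynomial.eval₂_map]
    exact h4
  obtain ⟨r, hr⟩ := (IsIntegrallyClosed.isIntegral_iff (R := O) (K := K)).1 h5
  rw [← hr]
  exact r.2

end Pool.Agent.Work.MP_e97a4d_nt
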