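import Pool.Agent.Work.MP_e97a4d_nt.Hyp.CurveToPt
import Pool.Agent.Work.MP_e97a4d_nt.UG.EntU
import Pool.Agent.Work.MP_e97a4d_nt.UG.Res
import Pool.Agent.Work.MP_e97a4d_nt.UG.Val
import Pool.Agent.Work.MP_e97a4d_nt.UP.CCFin

/-!
# UG/CurveU: entire curves when the function fields are generated by units
-/

set_option autoImplicit false

noncomputable section

namespace Pool.Agent.Work.MP_e97a4d_nt

open AlgebraicGeometry CategoryTheory IsDedekindDomain NumberField
open Hyp Vp Filter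
open scoped Topology

variable {F₀ : Type} [Field F₀] {V V' : Scheme.{0}}

theorem condI_of_unitGen [NumberField F₀] (σ : F₀ →+* ℂ)
    (π : V ⟶ Spec (CommRingCat.of (𝓞 F₀))) [LocallyOfFiniteType π] [QuasiCompact π]
    (i : V' ⟶ V) [IsClosedImmersion i] (hU : UnitGen σ π i) (hGm : CondGm σ π i) :
    CondI σ π i := by
  intro f hfe
  have hf := hfe.1
  by_contra hne
  push Not at hne
  obtain ⟨z₁, hz₁⟩ := hne
  have hz₁0 : ¬ ∃ p : Spec (CommRingCat.of ℂ) ⟶ V', p ≫ i = f z₁ := fun ⟨p, hp⟩ => hz₁ p hp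
  let O : V.Opens := ⟨(Set.range i)ᶜ, i.isClosedEmbedding.isClosed_range.isOpen_compl⟩
  have hz₁' : pt (f z₁) ∈ O := by
    have h := hz₁0
    rw [factors_iff_mem_range] at h
    exact h
  obtain ⟨B, j, g, D, hj, hD, hz, hfg, hhol, hjO⟩ := exists_chart_in hf z₁ O hz₁'
  have h₁ : pt (f z₁) ∈ Set.range j := by
    rw [hfg z₁ hz]
    exact ⟨_, rfl⟩
  set Φ : B →+* Mero := cpHom j hf h₁ with hΦ
  set x : Spec (CommRingCat.of Mero) ⟶ V := Spec.map (CommRingCat.ofHom Φ) ≫ j with hx
  -- the point `x` is over `rhoM`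
  have hstr : x ≫ π = Spec.map (CommRingCat.ofHom (rhoM σ)) := by
    obtain ⟨α, hα⟩ := Spec.map_surjective (j ≫ π)
    rw [hx, Category.assoc, ← hα, ← Spec.map_comp]
    congr 1
    ext r
    show cpHom j hf h₁ (α.hom r) = algebraMap ℂ Mero (σ (algebraMap (𝓞 F₀) F₀ r))
    rw [cpHom_apply, ← mk_const, mk_eq_iff]
    filter_upwards [cp_eventually_hom j hf h₁] with w hw
    obtain ⟨g', hg'⟩ := hw
    rw [cpFun_eq j g' hg']
    have h2 := hf.structural w
    rw [← hg', Category.assoc, ← hα, ← Spec.map_comp] at h2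
    have h3 := congrArg CommRingCat.Hom.hom (Spec.map_injective h2)
    exact RingHom.congr_fun h3 r
  set v : V := x (⊥ : PrimeSpectrum Mero) with hv
  have hvj : v ∈ Set.range j := ⟨_, rfl⟩
  have hvO : v ∈ O := hjO hvj
  have hvi : v ∉ Set.range i := hvO
  obtain ⟨Θ, hΘ⟩ := exists_theta x v rfl
  obtain ⟨α, hα, hαs⟩ := exists_alpha j v hvj
  have hΘα : ∀ b, Θ (α b) = Φ b := theta_alpha j α hα Φ Θ hΘ
  have hΘs : Θ.comp (strAt π v) = rhoM σ := theta_str π x (rhoM σ) hstr v Θ hΘ
  have hρinj : Function.Injective (rhoM σ) := by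
    have e1 : Function.Injective (algebraMap (𝓞 F₀) F₀) := IsFractionRing.injective (𝓞 F₀) F₀
    exact (algebraMap ℂ Mero).injective.comp (σ.injective.comp e1)
  have hsinj : Function.Injective (strAt π v) := by
    have h2 : Function.Injective (Θ.comp (strAt π v)) := by rw [hΘs]; exact hρinj
    exact Function.Injective.of_comp h2
  rcases hU v hvi hsinj with ⟨p, hp, hpv⟩ | hgen
  · obtain ⟨p', hp'⟩ := hGm p hp
    exact hvi ⟨p' (⊥ : PrimeSpectrum ℂ), by rw [← hpv, ← hp']; rfl⟩
  -- the values of units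
  have hunit1 : ∀ u : V.residueField v, IntegralAt (V.fromSpecResidueField v) u → ∀ z, Θ u ∈ Mz z := by
    intro u hu z
    obtain ⟨a, d, hd, had⟩ := hαs u
    have hPd : Φ d ≠ 0 := by
      rw [← hΘα]
      exact (map_ne_zero Θ).2 hd
    have h2 := integral_val j Φ α (fun b hb => by rw [← hΘα, hb, map_zero]) (Mz z)
      (cp_hasExt j hf h₁ z) (u := u) (by rw [hα]; exact hu) had hPd
    have h3 : Θ u = Φ a / Φ d := by
      rw [eq_div_iff hPd, ← hΘα, ← hΘα, ← map_mul, had]
    rw [h3]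
    exact h2
  have hUQ : ∀ ξ : V.residueField v, IsUQ (Θ ξ) := by
    intro ξ
    have hξ : ξ ∈ Subfield.closure (unitsAt v ∪ constAt π v) := by
      rw [hgen]
      trivial
    induction hξ using Subfield.closure_induction with
    | mem ξ hξ =>
      rcases hξ with hξ | ⟨p, hp, hpc⟩
      · refine IsUQ.of_unit (hunit1 ξ hξ.2.1) (fun z => ?_) ((map_ne_zero Θ).2 hξ.1)
        rw [← map_inv₀]
        exact hunit1 _ hξ.2.2 z
      · have h2 : Θ ξ ∈ Set.range (algebraMap ℂ Mero) := by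
          refine mero_alg (p.map (σ.comp (algebraMap (𝓞 F₀) F₀))) ?_ ?_
          · have e1 : Function.Injective (σ.comp (algebraMap (𝓞 F₀) F₀)) :=
              σ.injective.comp (IsFractionRing.injective (𝓞 F₀) F₀)
            rw [Ne, Polynomial.map_eq_zero_iff e1]
            rintro rfl
            exact hp (Polynomial.map_zero _)
          · have h3 := congrArg Θ hpc
            rw [Polynomial.hom_eval₂, hΘs, map_zero] at h3
            rw [Polynomial.aeval_def, Polynomial.eval₂_map]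
            exact h3
        obtain ⟨c, hc⟩ := h2
        rw [← hc]
        exact IsUQ.const c
    | one => rw [map_one]; exact IsUQ.one
    | add x y _ _ h1 h2 => rw [map_add]; exact h1.add h2
    | neg x _ h1 => rw [map_neg]; exact h1.neg
    | inv x _ h1 => rw [map_inv₀]; exact h1.inv
    | mul x y _ _ h1 h2 => rw [map_mul]; exact h1.mul h2
  -- the curve is a unit curve
  have hunitcurve : ∀ a : B, ∃ p ∈ unitRing, ∃ q ∈ unitRing, q ≠ 0 ∧
      ∀ z ∈ D, g z a * q z = p z := by
    intro a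
    obtain ⟨p, hp, q, hq, hq0, he⟩ := hUQ (α a)
    refine ⟨p, hp, q, hq, ?_, fun z hzD => ?_⟩
    · rintro rfl
      exact hq0 rfl
    · rw [hΘα, hΦ, cpHom_apply, mk_mul, mk_eq_iff] at he
      have hzj : pt (f z) ∈ Set.range j := by
        rw [hfg z hzD]
        exact ⟨_, rfl⟩
      have h2 : ∀ᶠ w in 𝓝[≠] z, (cpFun j f a * q) w = p w := eq_nhdsNE he z
      have h3 : Tendsto (cpFun j f a * q) (𝓝[≠] z) (𝓝 ((cpFun j f a * q) z)) :=
        (((cp_analyticAt j hf a hzj).continuousAt.mul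
          (unitRing_diff hq z).continuousAt).tendsto.mono_left nhdsWithin_le_nhds)
      have h4 : Tendsto p (𝓝[≠] z) (𝓝 (p z)) :=
        (unitRing_diff hp z).continuousAt.tendsto.mono_left nhdsWithin_le_nhds
      have h5 := tendsto_nhds_unique (h3.congr' h2) h4
      rw [Pi.mul_apply, cpFun_eq j (g z) (hfg z hzD).symm] at h5
      exact h5
  exact hz₁0 (condIunit_of_condGm σ π i hGm f hfe B j g D hD ⟨z₁, hz⟩ hfg hunitcurve z₁)

end Pool.Agent.Work.MP_e97a4d_nt
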