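import Pool.Agent.Work.MP_e97a4d_nt.ExpDefs

/-!
# Subvarieties whose function field is generated by units: definitions

Let `v` be a point of `V` and `Z` its closure. The residue field of `v` is the function field of `Z`, and the
elements of `unitsAt v` are the invertible functions on the normalization of `Z`.
-/

set_option autoImplicit false

noncomputable section

namespace Pool.Agent.Work.MP_e97a4d_nt

open AlgebraicGeometry CategoryTheory NumberField

/-- Let `w` be a point of `V` with values in the field `K`. The element `u` of `K` is integral over the
ring of every affine chart of `V` containing `w`. -/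
def IntegralAt {V : Scheme.{0}} {K : Type} [Field K] (w : Spec (CommRingCat.of K) ⟶ V) (u : K) : Prop :=
  ∀ (A : CommRingCat.{0}) (j : Spec A ⟶ V) (φ : A →+* K), IsOpenImmersion j →
    Spec.map (CommRingCat.ofHom φ) ≫ j = w → φ.IsIntegralElem u

/-- The elements of the residue field of `v` which are, together with their inverses, integral over every
affine chart of `V` containing `v`: the invertible functions on the normalization of the closure of `v`. -/
def unitsAt {V : Scheme.{0}} (v : V) : Set (V.residueField v) :=
  {u | u ≠ 0 ∧ IntegralAt (V.fromSpecResidueField v) u ∧ IntegralAt (V.fromSpecResidueField v) u⁻¹}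

variable {F₀ : Type} [Field F₀]

/-- The structure homomorphism from `𝓞 F₀` to the residue field of the point `v` of `V`. -/
def strAt {V : Scheme.{0}} (π : V ⟶ Spec (CommRingCat.of (𝓞 F₀))) (v : V) :
    𝓞 F₀ →+* V.residueField v :=
  (Spec.preimage (V.fromSpecResidueField v ≫ π)).hom

/-- The elements of the residue field of `v` which are algebraic over `𝓞 F₀`. -/
def constAt {V : Scheme.{0}} (π : V ⟶ Spec (CommRingCat.of (𝓞 F₀))) (v : V) :
    Set (V.residueField v) :=
  {c | ∃ p : Polynomial (𝓞 F₀), p.map (strAt π v) ≠ 0 ∧ p.eval₂ (strAt π v) c = 0}

/-- Every integral closed subscheme of the generic fibre of `V` which is not contained in `V'` (the closure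
of a point `v`) is swept out by images of the multiplicative group (some complex point of `V` over `v`
lies on such an image), or its function field is generated by the constants and the invertible
functions on its normalization. -/
def UnitGen (σ : F₀ →+* ℂ) {V V' : Scheme.{0}} (π : V ⟶ Spec (CommRingCat.of (𝓞 F₀)))
    (i : V' ⟶ V) : Prop :=
  ∀ v : V, v ∉ Set.range i → Function.Injective (strAt π v) →
    (∃ p ∈ gmPoints σ π, p (⊥ : PrimeSpectrum ℂ) = v) ∨
      Subfield.closure (unitsAt v ∪ constAt π v) = ⊤

end Pool.Agent.Work.MP_e97a4d_nt
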