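import Pool.Agent.Work.MP_e97a4d_nt.UG.Res
import Pool.Agent.Work.MP_e97a4d_nt.UP.PBAtlas
import Pool.Agent.Work.MP_e97a4d_nt.UP.Trans

/-!
# UG/OldCase: schemes which are locally immersed by global units outside `V'`
-/

set_option autoImplicit false

noncomputable section

namespace Pool.Agent.Work.MP_e97a4d_nt

open AlgebraicGeometry CategoryTheory NumberField
open Hyp

variable {F₀ : Type} [Field F₀] {V V' : Scheme.{0}}

/-- Global functions are integral over the charts. -/
theorem integralAt_resT (v : V) (h : Γ(V, ⊤)) :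
    IntegralAt (V.fromSpecResidueField v)
      (resT (B := V.residueField v) (V.fromSpecResidueField v) h) := by
  intro A j φ _ hφ
  have h1 : resT (B := V.residueField v) (V.fromSpecResidueField v) h = φ (resT j h) := by
    have h2 := resT_comp j (CommRingCat.ofHom φ) h
    have h3 := congrArg (fun t : Spec (V.residueField v) ⟶ V => resT t h) hφ
    exact h3.symm.trans h2
  rw [h1]
  exact RingHom.isIntegralElem_map _

theorem unitGen_of_units [NumberField F₀] (σ : F₀ →+* ℂ)
    (π : V ⟶ Spec (CommRingCat.of (𝓞 F₀))) [LocallyOfFiniteType π] [QuasiCompact π]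
    (i : V' ⟶ V) [IsClosedImmersion i] {n : ℕ} (h : Fin n → Γ(V, ⊤)) (hu : ∀ m, IsUnit (h m))
    (himm : SurjectiveOnStalks (toAff π i h)) : UnitGen σ π i := by
  intro v hv _
  right
  obtain ⟨𝒜, h𝒜⟩ := exists_good_atlas π i h himm
  obtain ⟨b, hb, a, c, hac⟩ := h𝒜 v hv
  have := 𝒜.oi b
  obtain ⟨α, hα, hαs⟩ := exists_alpha (𝒜.j b) v hb
  set G : Subfield (V.residueField v) := Subfield.closure (unitsAt v ∪ constAt π v) with hG
  have hres : ∀ m, α (resT (𝒜.j b) (h m)) =
      resT (B := V.residueField v) (V.fromSpecResidueField v) (h m) := by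
    intro m
    have h2 := resT_comp (𝒜.j b) (CommRingCat.ofHom α) (h m)
    have h3 := congrArg (fun t : Spec (V.residueField v) ⟶ V => resT t (h m)) hα
    exact h2.symm.trans h3
  have hunit : ∀ m, α (resT (𝒜.j b) (h m)) ∈ G := by
    intro m
    apply Subfield.subset_closure
    left
    rw [hres m]
    have h1 : IsUnit (resT (B := V.residueField v) (V.fromSpecResidueField v) (h m)) :=
      (hu m).map _
    obtain ⟨w, hw⟩ := (hu m).exists_right_inv
    refine ⟨h1.ne_zero, integralAt_resT v (h m), ?_⟩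
    have h2 : resT (B := V.residueField v) (V.fromSpecResidueField v) (h m) *
        resT (B := V.residueField v) (V.fromSpecResidueField v) w = 1 := by
      rw [← map_mul, hw, map_one]
    have key : ∀ ξ η : V.residueField v, ξ * η = 1 →
        IntegralAt (V.fromSpecResidueField v) η → IntegralAt (V.fromSpecResidueField v) ξ⁻¹ := by
      intro ξ η h hη
      have h3 : ξ⁻¹ = η := inv_eq_of_mul_eq_one_right h
      exact h3 ▸ hη
    exact key _ _ h2 (integralAt_resT v w)
  have hstr : α.comp (𝒜.ψ b) = strAt π v := by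
    have h1 : Spec.map (CommRingCat.ofHom (α.comp (𝒜.ψ b))) =
        Spec.map (CommRingCat.ofHom (strAt π v)) := by
      rw [← strAt_spec, ← hα, Category.assoc, 𝒜.str b, ← Spec.map_comp]
      rfl
    exact congrArg CommRingCat.Hom.hom (Spec.map_injective h1)
  have hconst : ∀ r, α (𝒜.ψ b r) ∈ G := by
    intro r
    apply Subfield.subset_closure
    right
    have h1 : α (𝒜.ψ b r) = strAt π v r := RingHom.congr_fun hstr r
    rw [h1]
    refine ⟨Polynomial.X - Polynomial.C r, ?_, ?_⟩
    · rw [Polynomial.map_sub, Polynomial.map_X, Polynomial.map_C]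
      exact Polynomial.X_sub_C_ne_zero _
    · rw [Polynomial.eval₂_sub, Polynomial.eval₂_X, Polynomial.eval₂_C, sub_self]
  have hpoly : ∀ q : MvPolynomial (Fin n) (𝓞 F₀),
      α (MvPolynomial.eval₂ (𝒜.ψ b) (fun m => resT (𝒜.j b) (h m)) q) ∈ G := by
    intro q
    induction q using MvPolynomial.induction_on with
    | C r => rw [MvPolynomial.eval₂_C]; exact hconst r
    | add p q hp hq => rw [MvPolynomial.eval₂_add, map_add]; exact add_mem hp hq
    | mul_X p m hp => rw [MvPolynomial.eval₂_mul, MvPolynomial.eval₂_X, map_mul]; exact mul_mem hp (hunit m)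
  have hx : ∀ l, α (𝒜.x b l) ∈ G := by
    intro l
    obtain ⟨h1, h2⟩ := hac l
    have h3 := (h1.map α).ne_zero
    have h4 : α (𝒜.x b l) = α (MvPolynomial.eval₂ (𝒜.ψ b) (fun m => resT (𝒜.j b) (h m)) (a l)) /
        α (MvPolynomial.eval₂ (𝒜.ψ b) (fun m => resT (𝒜.j b) (h m)) (c l)) := by
      rw [eq_div_iff h3, ← map_mul, h2]
    rw [h4]
    exact div_mem (hpoly _) (hpoly _)
  have hall : ∀ z, α z ∈ G := by
    intro z
    obtain ⟨q, rfl⟩ := 𝒜.gen b z
    induction q using MvPolynomial.induction_on with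
    | C r => rw [MvPolynomial.eval₂Hom_C]; exact hconst r
    | add p q hp hq => rw [map_add, map_add]; exact add_mem hp hq
    | mul_X p m hp =>
      rw [map_mul, map_mul, MvPolynomial.eval₂Hom_X']
      exact mul_mem hp (hx m)
  rw [eq_top_iff]
  intro ξ _
  obtain ⟨a', d', hd', had⟩ := hαs ξ
  have h5 : ξ = α a' / α d' := by rw [eq_div_iff hd', had]
  rw [h5]
  exact div_mem (hall a') (hall d')

end Pool.Agent.Work.MP_e97a4d_nt
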