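import Pool.Agent.Work.MP_e97a4d_nt.Hyp.IntFin
import Pool.Agent.Work.MP_e97a4d_nt.UG.Res
import Pool.Agent.Work.MP_e97a4d_nt.UG.Val
import Pool.Agent.Work.MP_e97a4d_nt.UG.Frac
import Pool.Agent.Work.MP_e97a4d_nt.UP.PBII

/-!
# UG/PointU: integral points when the function fields are generated by units
-/

set_option autoImplicit false

noncomputable section

namespace Pool.Agent.Work.MP_e97a4d_nt

open AlgebraicGeometry CategoryTheory IsDedekindDomain NumberField
open Hyp Vp Filter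

variable {F₀ : Type} [Field F₀] {V V' : Scheme.{0}}

open Pool.Agent.Work.UP in
/-- Integral polynomials in units and constants as Laurent polynomials. -/
private def toLq {F : Type} [Field F] (n : ℕ) {r : ℕ} (γ : Fin r → F) :
    MvPolynomial (Fin n ⊕ Fin r) ℤ →+* Lp F n :=
  MvPolynomial.eval₂Hom (Int.castRingHom (Lp F n))
    (Sum.elim (fun m => AddMonoidAlgebra.single (Pi.single m 1) 1) (fun k => lC (γ k)))

open Pool.Agent.Work.UP in
private theorem evk_toLq {F : Type} [Field F] {n r : ℕ} (γ : Fin r → F) (u : Fin n → Fˣ)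
    (q : MvPolynomial (Fin n ⊕ Fin r) ℤ) :
    evk u (toLq n γ q) = MvPolynomial.aeval (Sum.elim (cu u) γ) q := by
  have h : (evk u).comp (toLq n γ) =
      ((MvPolynomial.aeval (Sum.elim (cu u) γ) : MvPolynomial (Fin n ⊕ Fin r) ℤ →ₐ[ℤ] F) :
        MvPolynomial (Fin n ⊕ Fin r) ℤ →+* F) := by
    apply MvPolynomial.ringHom_ext
    · intro a
      simp
    · intro m
      rw [RingHom.comp_apply, toLq, MvPolynomial.eval₂Hom_X']
      rcases m with m | k
      · simp only [Sum.elim_inl, RingHom.coe_coe, MvPolynomial.aeval_X]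
        rw [ev_single, mon_single_one, map_one, one_mul]
      · simp only [Sum.elim_inr, RingHom.coe_coe, MvPolynomial.aeval_X]
        rw [ev_lC, RingHom.id_apply]
  exact RingHom.congr_fun h q

/-- An element of `F` which is, together with its inverse, in the valuation rings outside `S`. -/
private theorem unit_of_val {F : Type} [Field F] [NumberField F] {S : Finset (HeightOneSpectrum (𝓞 F))}
    {n : ℕ} (U : Fin n → F) (h0 : ∀ m, U m ≠ 0) (h1 : ∀ m, ∀ O ∈ VF F S, U m ∈ O)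
    (h2 : ∀ m, ∀ O ∈ VF F S, (U m)⁻¹ ∈ O) :
    Pool.Agent.Work.UP.IsUv S (Pool.Agent.Work.UP.cu (fun m => Units.mk0 (U m) (h0 m))) := by
  intro m
  have hc : Pool.Agent.Work.UP.cu (fun m => Units.mk0 (U m) (h0 m)) m = U m := rfl
  rw [hc]
  have key : ∀ x : F, (∀ O ∈ VF F S, x ∈ O) → ∀ p ∉ S, FinitePlace.mk p x ≤ 1 := by
    intro x hx p hp
    have h3 : x ∈ (S : Set (HeightOneSpectrum (𝓞 F))).integer F := by
      intro v hv
      have h4 := hx _ ⟨v, hv, rfl⟩
      rw [Valuation.mem_valuationSubring_iff] at h4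
      exact h4
    exact (mem_integer_iff S _).1 h3 p hp
  refine ⟨h0 m, fun p hp => ?_⟩
  have e1 := key _ (h1 m) p hp
  have e2 := key _ (h2 m) p hp
  have e3 : FinitePlace.mk p (U m) * FinitePlace.mk p (U m)⁻¹ = 1 := by
    rw [← map_mul, mul_inv_cancel₀ (h0 m), map_one]
  have e4 : (0 : ℝ) ≤ FinitePlace.mk p (U m) := apply_nonneg _ _
  refine le_antisymm e1 ?_
  rw [← e3]
  exact mul_le_of_le_one_right e4 e2

theorem condII_of_unitGen [NumberField F₀] (σ : F₀ →+* ℂ)
    (π : V ⟶ Spec (CommRingCat.of (𝓞 F₀))) [LocallyOfFiniteType π] [QuasiCompact π]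
    (i : V' ⟶ V) [IsClosedImmersion i] (hU : UnitGen σ π i) (hGm : CondGm σ π i) :
    CondII π i := by
  classical
  intro F _ _ _ S
  obtain ⟨𝒜⟩ := nonempty_atlas π
  have hfin := 𝒜.fin
  by_contra hinf
  set Y : Set (Spec (CommRingCat.of (SInt F S)) ⟶ V) :=
    {y ∈ integralPoints π F S | ¬ ∃ z : Spec (CommRingCat.of (SInt F S)) ⟶ V', z ≫ i = y} with hY
  have hinf' : Y.Infinite := hinf
  obtain ⟨b, hb⟩ : ∃ b : 𝒜.β,
      {y ∈ Y | gpt y (⊥ : PrimeSpectrum F) ∈ Set.range (𝒜.j b)}.Infinite := by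
    by_contra hcon
    push Not at hcon
    apply hinf'
    refine (Set.finite_iUnion fun b => hcon b).subset ?_
    intro y hy
    obtain ⟨b, hb⟩ := 𝒜.cov (gpt y (⊥ : PrimeSpectrum F))
    exact Set.mem_iUnion.2 ⟨b, hy, hb⟩
  have := 𝒜.oi b
  have := 𝒜.finι b
  set j := 𝒜.j b with hj
  let T : Type := {y : Spec (CommRingCat.of (SInt F S)) ⟶ V // y ∈ Y ∧
    gpt y (⊥ : PrimeSpectrum F) ∈ Set.range (𝒜.j b)}
  have hTinf : Infinite T := hb.to_subtype
  have hP0 : ∀ y : T, ∃ P : 𝒜.B b →+* F, Spec.map (CommRingCat.ofHom P) ≫ j = gpt y.1 := fun y =>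
    exists_hom_of_mem (gpt y.1) j y.2.2
  choose P hP using hP0
  set τ : 𝓞 F₀ →+* F := (algebraMap F₀ F).comp (algebraMap (𝓞 F₀) F₀) with hτ
  have hPτ : ∀ y : T, (P y).comp (𝒜.ψ b) = τ := fun y =>
    str_of_gpt y.2.1.1 (𝒜.str b) (hP y).symm
  have hτinj : Function.Injective τ :=
    (algebraMap F₀ F).injective.comp (IsFractionRing.injective (𝓞 F₀) F₀)
  let 𝒰 : Ultrafilter T := hyperfilter T
  let E : (T → F) →+* Germ (𝒰 : Filter T) F := Germ.coeRingHom (𝒰 : Filter T)
  have hE : ∀ f g : T → F, E f = E g ↔ ∀ᶠ y in (𝒰 : Filter T), f y = g y := fun f g => Germ.coe_eq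
  have hE0 : ∀ f : T → F, E f = 0 ↔ ∀ᶠ y in (𝒰 : Filter T), f y = 0 := fun f => by
    rw [← map_zero E, hE]
    rfl
  have hEne : ∀ f : T → F, E f ≠ 0 → ∀ᶠ y in (𝒰 : Filter T), f y ≠ 0 := fun f hf => by
    rw [Ne, hE0] at hf
    exact Ultrafilter.eventually_not.2 hf
  set Φ : 𝒜.B b →+* Germ (𝒰 : Filter T) F := E.comp (RingHom.pi P) with hΦ
  have hΦa : ∀ a, Φ a = E (fun y => P y a) := fun a => rfl
  -- eventually the kernel of `P y` contains the kernel of `Φ`
  have hnoeth : IsNoetherianRing (𝒜.B b) :=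
    isNoetherianRing_of_surjective _ _ (MvPolynomial.eval₂Hom (𝒜.ψ b) (𝒜.x b)) (𝒜.gen b)
  have hgood : ∀ᶠ y in (𝒰 : Filter T), ∀ a, Φ a = 0 → P y a = 0 := by
    obtain ⟨s, hs⟩ := (isNoetherianRing_iff_ideal_fg _).1 hnoeth (RingHom.ker Φ)
    have h1 : ∀ᶠ y in (𝒰 : Filter T), ∀ a ∈ s, P y a = 0 := by
      rw [Filter.eventually_all_finset]
      intro a ha
      have h2 : a ∈ RingHom.ker Φ := by
        rw [← hs]
        exact Ideal.subset_span ha
      exact (hE0 _).1 h2
    filter_upwards [h1] with y hy a ha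
    have h3 : RingHom.ker Φ ≤ RingHom.ker (P y) := by
      rw [← hs, Ideal.span_le]
      exact fun a ha => hy a ha
    exact h3 ha
  set x : Spec (CommRingCat.of (Germ (𝒰 : Filter T) F)) ⟶ V :=
    Spec.map (CommRingCat.ofHom Φ) ≫ j with hx
  set v : V := x (⊥ : PrimeSpectrum (Germ (𝒰 : Filter T) F)) with hv
  have hvj : v ∈ Set.range j := ⟨_, rfl⟩
  -- the points are not in `V'`
  have hout : ∀ y : T, gpt y.1 (⊥ : PrimeSpectrum F) ∉ Set.range i := by
    intro y hy
    exact y.2.1.2 (closed_of_gpt i y.1 ((factors_iff_mem_range i (gpt y.1)).2 hy))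
  have hvi : v ∉ Set.range i := by
    obtain ⟨y, hy⟩ := hgood.exists
    intro hcon
    let O : V.Opens := ⟨(Set.range i)ᶜ, i.isClosedEmbedding.isClosed_range.isOpen_compl⟩
    have h1 : (Spec.map (CommRingCat.ofHom (P y)) ≫ j) (⊥ : PrimeSpectrum F) ∈ O := by
      rw [hP y]
      exact hout y
    obtain ⟨a, ha, haO⟩ := exists_elt j (P y) O h1
    have h2 : Φ a ≠ 0 := fun h => ha (hy a h)
    have h3 : j (PrimeSpectrum.comap Φ ⊥) ∈ O := haO _ (fun h => h2 h)
    exact h3 hcon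
  have hstr : x ≫ π = Spec.map (CommRingCat.ofHom (Φ.comp (𝒜.ψ b))) := by
    rw [hx, Category.assoc, 𝒜.str b, ← Spec.map_comp]
    rfl
  obtain ⟨Θ, hΘ⟩ := exists_theta x v rfl
  obtain ⟨α, hα, hαs⟩ := exists_alpha j v hvj
  have hΘα : ∀ b, Θ (α b) = Φ b := theta_alpha j α hα Φ Θ hΘ
  have hΘs : Θ.comp (strAt π v) = Φ.comp (𝒜.ψ b) := theta_str π x _ hstr v Θ hΘ
  have hρinj : Function.Injective (Φ.comp (𝒜.ψ b)) := by
    rw [injective_iff_map_eq_zero]
    intro a ha
    have h1 : ∀ᶠ y in (𝒰 : Filter T), P y (𝒜.ψ b a) = 0 := (hE0 _).1 ha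
    obtain ⟨y, hy⟩ := h1.exists
    have h2 : τ a = 0 := by rw [← hPτ y]; exact hy
    exact hτinj (by rw [h2, map_zero])
  have hsinj : Function.Injective (strAt π v) := by
    have h2 : Function.Injective (Θ.comp (strAt π v)) := by rw [hΘs]; exact hρinj
    exact Function.Injective.of_comp h2
  rcases hU v hvi hsinj with ⟨p, hp, hpv⟩ | hgen
  · obtain ⟨p', hp'⟩ := hGm p hp
    exact hvi ⟨p' (⊥ : PrimeSpectrum ℂ), by rw [← hpv, ← hp']; rfl⟩
  obtain ⟨n, r, u, c, A, D, hu, hc, hAD⟩ := exists_frac (unitsAt v) (constAt π v)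
    (fun l => α (𝒜.x b l)) (fun l => by rw [hgen]; trivial)
  choose am dm hdm hadm using fun m => hαs (u m)
  have hu0 : ∀ m, u m ≠ 0 := fun m => (hu m).1
  have ham : ∀ m, α (am m) ≠ 0 := fun m => by
    rw [← hadm]
    exact mul_ne_zero (hu0 m) (hdm m)
  -- the constants
  have hconst : ∀ k, ∃ γ : F, Θ (c k) = E (fun _ => γ) := by
    intro k
    obtain ⟨p, hp, hpc⟩ := hc k
    obtain ⟨C, hC⟩ : ∃ C : T → F, E C = Θ (c k) := by
      induction hh : Θ (c k) using Germ.inductionOn with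
      | _ f => exact ⟨f, rfl⟩
    let κ : 𝓞 F₀ →+* (T → F) := (RingHom.pi P).comp (𝒜.ψ b)
    have h1 : E (p.eval₂ κ C) = 0 := by
      rw [Polynomial.hom_eval₂, hC]
      have h2 : E.comp κ = Θ.comp (strAt π v) := by
        rw [hΘs]
        rfl
      rw [h2, ← Polynomial.hom_eval₂, hpc, map_zero]
    have h2 : ∀ᶠ y in (𝒰 : Filter T), ∃ γ ∈ {γ : F | (p.map τ).IsRoot γ}, C y = γ := by
      filter_upwards [(hE0 _).1 h1] with y hy
      refine ⟨C y, ?_, rfl⟩
      have h3 : (Pi.evalRingHom (fun _ : T => F) y) (p.eval₂ κ C) = 0 := hy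
      rw [Polynomial.hom_eval₂] at h3
      have h4 : (Pi.evalRingHom (fun _ : T => F) y).comp κ = τ := hPτ y
      rw [h4] at h3
      show (p.map τ).eval (C y) = 0
      rw [Polynomial.eval_map]
      exact h3
    have hp0 : p.map τ ≠ 0 := by
      rw [Ne, Polynomial.map_eq_zero_iff hτinj]
      rintro rfl
      exact hp (Polynomial.map_zero _)
    rw [Ultrafilter.eventually_exists_mem_iff (Polynomial.finite_setOf_isRoot hp0)] at h2
    obtain ⟨γ, -, hγ⟩ := h2
    exact ⟨γ, by rw [← hC, hE]; exact hγ⟩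
  choose γ hγ using hconst
  -- the units
  have hev1 : ∀ᶠ y in (𝒰 : Filter T), ∀ m, P y (dm m) ≠ 0 ∧ P y (am m) ≠ 0 := by
    rw [Filter.eventually_all]
    intro m
    refine Filter.Eventually.and ?_ ?_
    · exact hEne _ (by rw [← hΦa, ← hΘα]; exact (map_ne_zero Θ).2 (hdm m))
    · exact hEne _ (by rw [← hΦa, ← hΘα]; exact (map_ne_zero Θ).2 (ham m))
  let W : Fin n ⊕ Fin r → (T → F) :=
    Sum.elim (fun m y => P y (am m) / P y (dm m)) (fun k _ => γ k)
  have hΘW : ∀ s, Θ (Sum.elim u c s) = E (W s) := by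
    rintro (m | k)
    · have h1 : E (fun y => P y (dm m)) ≠ 0 := by
        rw [← hΦa, ← hΘα]
        exact (map_ne_zero Θ).2 (hdm m)
      have h2 : E (W (Sum.inl m)) * E (fun y => P y (dm m)) = E (fun y => P y (am m)) := by
        rw [← map_mul, hE]
        filter_upwards [hev1] with y hy
        exact div_mul_cancel₀ _ (hy m).1
      apply mul_right_cancel₀ h1
      rw [h2, ← hΦa, ← hΦa, ← hΘα, ← hΘα, ← map_mul]
      exact congrArg Θ (hadm m)
    · exact hγ k
  have hΘq : ∀ q : MvPolynomial (Fin n ⊕ Fin r) ℤ, Θ (MvPolynomial.aeval (Sum.elim u c) q) =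
      E (fun y => MvPolynomial.aeval (fun s => W s y) q) := by
    intro q
    have h1 : (Θ.comp ((MvPolynomial.aeval (Sum.elim u c) :
          MvPolynomial (Fin n ⊕ Fin r) ℤ →ₐ[ℤ] V.residueField v) :
          MvPolynomial (Fin n ⊕ Fin r) ℤ →+* V.residueField v)) =
        E.comp (RingHom.pi (fun y => ((MvPolynomial.aeval (fun s => W s y) :
          MvPolynomial (Fin n ⊕ Fin r) ℤ →ₐ[ℤ] F) :
          MvPolynomial (Fin n ⊕ Fin r) ℤ →+* F))) := by
      apply MvPolynomial.ringHom_ext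
      · intro a
        rw [eq_intCast (MvPolynomial.C) a, map_intCast, map_intCast]
      · intro s
        have e1 : (E.comp (RingHom.pi (fun y => ((MvPolynomial.aeval (fun s => W s y) :
          MvPolynomial (Fin n ⊕ Fin r) ℤ →ₐ[ℤ] F) :
          MvPolynomial (Fin n ⊕ Fin r) ℤ →+* F)))) (MvPolynomial.X s) = E (W s) := by
          rw [RingHom.comp_apply]
          congr 1
          funext y
          exact MvPolynomial.aeval_X _ _
        rw [e1, ← hΘW, RingHom.comp_apply]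
        congr 1
        exact MvPolynomial.aeval_X _ _
    exact RingHom.congr_fun h1 q
  have hev2 : ∀ᶠ y in (𝒰 : Filter T), ∀ l, MvPolynomial.aeval (fun s => W s y) (D l) ≠ 0 ∧
      P y (𝒜.x b l) * MvPolynomial.aeval (fun s => W s y) (D l) =
        MvPolynomial.aeval (fun s => W s y) (A l) := by
    rw [Filter.eventually_all]
    intro l
    refine Filter.Eventually.and ?_ ?_
    · exact hEne _ (by rw [← hΘq]; exact (map_ne_zero Θ).2 (hAD l).1)
    · have h1 : E ((fun y => P y (𝒜.x b l)) * (fun y => MvPolynomial.aeval (fun s => W s y) (D l))) =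
          E (fun y => MvPolynomial.aeval (fun s => W s y) (A l)) := by
        rw [map_mul, ← hΘq, ← hΘq, ← hΦa, ← hΘα, ← map_mul]
        exact congrArg Θ (hAD l).2
      exact (hE _ _).1 h1
  -- all these points are parametrised by units
  have hPar : ∀ᶠ y in (𝒰 : Filter T), y.1 ∈ Par i 𝒜 F S b (fun l => toLq n γ (A l))
      (fun l => toLq n γ (D l)) := by
    filter_upwards [hgood, hev1, hev2] with y hy h1 h2
    have hU0 : ∀ m, P y (am m) / P y (dm m) ≠ 0 := fun m => div_ne_zero (h1 m).2 (h1 m).1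
    have hext : ∀ O ∈ VF F S, HasExt O (Spec.map (CommRingCat.ofHom (P y)) ≫ j) := by
      rw [hP y]
      exact (gen_mem π i F S y.1 y.2.1.1 y.2.1.2).2.2
    have hker : ∀ b, α b = 0 → P y b = 0 := fun b hb => hy b (by rw [← hΘα, hb, map_zero])
    have hval : ∀ m, ∀ O ∈ VF F S, P y (am m) / P y (dm m) ∈ O := fun m O hO =>
      integral_val j (P y) α hker O (hext O hO) (u := u m) (by rw [hα]; exact (hu m).2.1)
        (hadm m) (h1 m).1
    have hval' : ∀ m, ∀ O ∈ VF F S, (P y (am m) / P y (dm m))⁻¹ ∈ O := fun m O hO => by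
      rw [inv_div]
      refine integral_val j (P y) α hker O (hext O hO) (u := (u m)⁻¹)
        (by rw [hα]; exact (hu m).2.2) ?_ (h1 m).2
      rw [← hadm, inv_mul_cancel_left₀ (hu0 m)]
    refine ⟨y.2.1.1, ⟨fun m => Units.mk0 _ (hU0 m), P y, unit_of_val _ hU0 hval hval',
      (hP y).symm, fun l => ?_⟩, y.2.1.2⟩
    have h3 : ∀ q : MvPolynomial (Fin n ⊕ Fin r) ℤ,
        evk (fun m => Units.mk0 (P y (am m) / P y (dm m)) (hU0 m)) (toLq n γ q) =
          MvPolynomial.aeval (fun s => W s y) q := by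
      intro q
      rw [evk_toLq]
      congr 2
      funext s
      rcases s with m | k <;> rfl
    refine ⟨by rw [h3]; exact (h2 l).1, ?_⟩
    rw [h3, h3, eq_div_iff (h2 l).1]
    exact (h2 l).2
  have hfinP := par_finite σ i hGm 𝒜 F S n b (fun l => toLq n γ (A l)) (fun l => toLq n γ (D l))
  have hfinT : {y : T | y.1 ∈ Par i 𝒜 F S b (fun l => toLq n γ (A l))
      (fun l => toLq n γ (D l))}.Finite :=
    hfinP.preimage (Subtype.val_injective.injOn)
  exact hfinT.notMem_hyperfilter hPar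

end Pool.Agent.Work.MP_e97a4d_nt
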